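import Pool.Agent.H971R3.FV.Stmts

set_option autoImplicit false

open MeasureTheory Set

namespace Pool.Agent.H971R3.FV

namespace Wal

theorem W_zero : W 0 = Real.pi / 2 := by
  simp [W]

theorem W_one : W 1 = 1 := by
  simp [W]

theorem W_succ (k : ℕ) : W (k + 2) = ((k : ℝ) + 1) / (k + 2) * W k := by
  unfold W
  rw [integral_cos_pow]
  simp

theorem c_eq (k : ℕ) : c (k + 1) = W k - W (k + 2) := by
  have h1 : ∫ x in (0 : ℝ)..(Real.pi / 2),
      ((fun u : ℝ => u ^ k * Real.sqrt (1 - u ^ 2)) ∘ Real.cos) x * (-Real.sin x) =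
      ∫ u in (Real.cos 0)..(Real.cos (Real.pi / 2)), u ^ k * Real.sqrt (1 - u ^ 2) := by
    apply intervalIntegral.integral_comp_mul_deriv
    · intro x _; exact Real.hasDerivAt_cos x
    · exact (Real.continuous_sin.neg).continuousOn
    · exact (continuous_id.pow k).mul (Real.continuous_sqrt.comp (by fun_prop))
  rw [Real.cos_zero, Real.cos_pi_div_two] at h1
  have h2 : c (k + 1) = ∫ x in (0 : ℝ)..(Real.pi / 2), Real.cos x ^ k * Real.sin x ^ 2 := by
    unfold c
    have h3 : ∫ x in (0 : ℝ)..(Real.pi / 2), Real.cos x ^ k * Real.sin x ^ 2 =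
        -∫ x in (0 : ℝ)..(Real.pi / 2),
      ((fun u : ℝ => u ^ k * Real.sqrt (1 - u ^ 2)) ∘ Real.cos) x * (-Real.sin x) := by
      rw [← intervalIntegral.integral_neg]
      apply intervalIntegral.integral_congr
      intro x hx
      rw [uIcc_of_le (by positivity)] at hx
      have hs : 0 ≤ Real.sin x :=
        Real.sin_nonneg_of_nonneg_of_le_pi hx.1 (by have := hx.2; have := Real.pi_pos; linarith)
      have hq : Real.sqrt (1 - Real.cos x ^ 2) = Real.sin x := by
        rw [← Real.sin_sq]; exact Real.sqrt_sq hs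
      simp only [Function.comp_apply, hq]
      ring
    rw [h3, h1, ← intervalIntegral.integral_symm]
    rfl
  rw [h2]
  unfold W
  rw [← intervalIntegral.integral_sub]
  · apply intervalIntegral.integral_congr
    intro x _
    simp only
    rw [Real.sin_sq]
    ring
  · exact (Real.continuous_cos.pow k).intervalIntegrable _ _
  · exact (Real.continuous_cos.pow (k + 2)).intervalIntegrable _ _

theorem WW (k : ℕ) : ((k : ℝ) + 1) * W k * W (k + 1) = Real.pi / 2 := by
  induction k with
  | zero => rw [W_zero, W_one]; simp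
  | succ k ih =>
    rw [W_succ]
    rw [← ih]
    push_cast
    field_simp
    ring

end Wal

open Wal in
theorem taskWallis : TaskWallis := by
  intro d hd
  obtain ⟨k, rfl⟩ : ∃ k, d = k + 1 := ⟨d - 1, by omega⟩
  have h := WW k
  rw [c_eq, W_succ]
  rw [← h]
  push_cast
  field_simp
  ring

end Pool.Agent.H971R3.FV
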